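import Pool.Agent.Q197.FlatDefs
import Pool.Agent.Q197.Orient
import Pool.Agent.Q197.StripTop

/-!
# A non-orientable smooth flat surface in `S³` containing a closed asymptotic line

We prove the negated form of Q1 of MP_ab5f6d_gt, even in the class `C^∞` and for an embedded
surface. Let `ζ(s) = -s² + i k(s)` be a regular plane curve with `k` smooth, odd and zero for
`|s| ≥ 1`. The map `RR (τ, s) = (1 + |ζ|²)^(-1/2) (e^{iτ}, e^{iτ} ζ(s))` is a flat immersion
(a Hopf-type immersion over the curve `ζ`). The surface is the union of the annulus `s < -1` and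
of the strip `|s| < 3/2, |τ - π (s + 1) / 2| < π / 4`, where `(τ, s)` with `s > 1` is the same point
as `(τ, -s)`: running through the strip one comes back to the annulus with the orientation
reversed. The curve `s = -2` is a great circle, hence an asymptotic line, and it is closed.
-/

open Set
open scoped ContDiff

namespace Pool.Agent.Results.MP_ab5f6d_gt.ClosedAsymptotic

open Q197.Flat Q197.Strip
open Q197.Hopf hiding E4

/-- The reflection `(τ, s) ↦ (τ, -s)`. -/
def refl : (ℝ × ℝ) →L[ℝ] (ℝ × ℝ) :=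
  (ContinuousLinearMap.fst ℝ ℝ ℝ).prod (-(ContinuousLinearMap.snd ℝ ℝ ℝ))

lemma refl_apply (x : ℝ × ℝ) : refl x = (x.1, -x.2) := rfl

lemma refl_det : refl.det < 0 := by
  have h : refl.det = LinearMap.det
      (LinearMap.prodMap (LinearMap.id : ℝ →ₗ[ℝ] ℝ) (-(LinearMap.id : ℝ →ₗ[ℝ] ℝ))) := rfl
  rw [h, LinearMap.det_prodMap]
  simp

lemma isSurface : IsSurface ∞ FF := by
  refine ⟨isConnected_Om.image _ contDiff_RR.continuous.continuousOn, ?_, ?_⟩
  · rintro x ⟨y, _, rfl⟩
    exact norm_RR y
  · rintro x ⟨y, hy, rfl⟩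
    obtain ⟨W, hW, hyW, _⟩ := exists_param hy ∞ le_rfl
    exact ⟨W, RR, hW, mem_image_of_mem _ hyW⟩

lemma isFlat : IsFlat ∞ FF := by
  rintro x ⟨y, hy, rfl⟩
  obtain ⟨W, hW, hyW, _⟩ := exists_param hy ∞ le_rfl
  obtain ⟨Θ, hΘ, hiso⟩ := develop
  exact ⟨W, RR, Θ, hW, mem_image_of_mem _ hyW, hΘ.contDiffOn, fun q _ v w => hiso q v w⟩

lemma not_orientable : ¬ IsOrientable FF := by
  have hpi := Real.pi_pos
  have h1 : ((9 * Real.pi / 8 : ℝ), (5 / 4 : ℝ)) ∈ Om := by
    right
    rw [mem_OV_iff]
    constructor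
    · rw [abs_lt]; constructor <;> norm_num
    · rw [abs_lt]; constructor <;> nlinarith
  have h2 : ((9 * Real.pi / 8 : ℝ), (-(5 / 4) : ℝ)) ∈ Om := by
    left
    rw [mem_OA_iff]
    norm_num
  refine Q197.Orient.not_orientable isConnected_Om.isPreconnected
    (fun y hy => exists_param hy 1 (by simp)) h1 h2 (RR_neg (by norm_num)).symm refl_det ?_
  have hev : RR =ᶠ[nhds ((9 * Real.pi / 8 : ℝ), (5 / 4 : ℝ))] fun x => RR (refl x) := by
    have hop : IsOpen {x : ℝ × ℝ | 1 < x.2} := isOpen_lt continuous_const continuous_snd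
    filter_upwards [hop.mem_nhds (show (1 : ℝ) < 5 / 4 by norm_num)] with x hx
    rw [refl_apply]
    have hx' : 1 < x.2 := hx
    exact (RR_neg (τ := x.1) (s := x.2) (by nlinarith)).symm
  have hd : HasFDerivAt RR (fderiv ℝ RR ((9 * Real.pi / 8 : ℝ), (-(5 / 4) : ℝ)))
      (refl ((9 * Real.pi / 8 : ℝ), (5 / 4 : ℝ))) :=
    (contDiff_RR.differentiable (by simp) _).hasFDerivAt
  have hc : HasFDerivAt (fun x => RR (refl x))
      ((fderiv ℝ RR ((9 * Real.pi / 8 : ℝ), (-(5 / 4) : ℝ))).comp refl)
      ((9 * Real.pi / 8 : ℝ), (5 / 4 : ℝ)) := HasFDerivAt.comp _ hd refl.hasFDerivAt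
  exact (hc.congr_of_eventuallyEq hev).fderiv

/-- The closed asymptotic line. -/
noncomputable def line (t : ℝ) : E4 := RR (t, -2)

lemma hasDeriv_line (t : ℝ) : HasDerivAt line (R1 (t, -2)) t := by
  have hc := Real.hasDerivAt_cos t
  have hs := Real.hasDerivAt_sin t
  apply hasDerivAt_E4
  intro i
  fin_cases i
  · refine (hc.const_mul (rr (-2))).congr_deriv ?_
    simp [R1]
  · exact hs.const_mul (rr (-2))
  · refine (((hc.const_mul (-((-2 : ℝ) ^ 2))).sub (hs.const_mul (kk (-2)))).const_mul
      (rr (-2))).congr_deriv ?_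
    simp [R1]
  · refine (((hs.const_mul (-((-2 : ℝ) ^ 2))).add (hc.const_mul (kk (-2)))).const_mul
      (rr (-2))).congr_deriv ?_
    simp only [R1, Fin.reduceFinMk, PiLp.toLp_apply, Matrix.cons_val]
    ring

lemma hasDeriv_line2 (t : ℝ) : HasDerivAt (fun t => R1 (t, -2)) (-line t) t := by
  have hc := Real.hasDerivAt_cos t
  have hs := Real.hasDerivAt_sin t
  apply hasDerivAt_E4
  intro i
  fin_cases i
  · refine (hs.const_mul (rr (-2))).neg.congr_deriv ?_
    simp [line, RR]
  · refine (hc.const_mul (rr (-2))).congr_deriv ?_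
    simp [line, RR]
  · refine (((hs.const_mul (((-2 : ℝ) ^ 2))).sub (hc.const_mul (kk (-2)))).const_mul
      (rr (-2))).congr_deriv ?_
    simp [line, RR]
    ring
  · refine (((hc.const_mul (-((-2 : ℝ) ^ 2))).sub (hs.const_mul (kk (-2)))).const_mul
      (rr (-2))).congr_deriv ?_
    simp [line, RR]
    ring

lemma closedLine : IsClosedAsymptoticLine ∞ FF line (2 * Real.pi) := by
  have hd : deriv line = fun t => R1 (t, -2) := funext fun t => (hasDeriv_line t).deriv
  refine ⟨by positivity, ?_, ?_, ?_, ?_, ?_, ?_⟩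
  · exact contDiff_RR.comp (contDiff_id.prodMk contDiff_const)
  · intro t
    refine mem_image_of_mem _ (Or.inl ?_)
    rw [mem_OA_iff]
    norm_num
  · intro t h0
    rw [hd] at h0
    have h1 := inner11 t (-2)
    simp only at h0
    rw [h0, inner_zero_left] at h1
    exact zero_ne_one h1
  · intro t
    unfold line
    have := RR_add t (-2) 1
    simpa using this
  · intro t ht t' ht' h
    have e3 : Real.cos (t - t') = 1 := by
      have := congrArg (ch t') h
      unfold line at this
      rwa [ch_RR, ch_RR, sub_self, Real.cos_zero] at this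
    have h3 := (Real.cos_eq_one_iff_of_lt_of_lt (by linarith [ht.1, ht'.2])
      (by linarith [ht.2, ht'.1])).1 e3
    linarith
  · intro t v hv
    rw [hd, (hasDeriv_line2 t).deriv, inner_neg_left, real_inner_comm, hv.1, neg_zero]

/-- **Negated form of Q1.** There is a connected embedded `C^∞` surface `F ⊂ S³` whose induced
metric is locally Euclidean, which is non-orientable and which contains a closed asymptotic
line. -/
theorem result : ∃ (F : Set E4) (γ : ℝ → E4) (T : ℝ),
    IsSurface ∞ F ∧ IsFlat ∞ F ∧ ¬ IsOrientable F ∧ IsClosedAsymptoticLine ∞ F γ T :=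
  ⟨FF, line, 2 * Real.pi, isSurface, isFlat, not_orientable, closedLine⟩

end Pool.Agent.Results.MP_ab5f6d_gt.ClosedAsymptotic
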